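import Pool.Agent.Helper34.EC.Defs

/-!
# Project EC, module EC-C5, abstract part: leading coefficients give a filtered algebra
-/

set_option autoImplicit false

namespace Pool.Agent.Helper30.EC

open TensorProduct Pool.Agent.Helper34.EC

/-- A filtered algebra over `R` with leading coefficients in `R`. -/
structure Lc (R A : Type) [CommRing R] [CommRing A] [Algebra R A] where
  /-- the filtration -/
  AM : ℕ → Submodule R A
  /-- the leading coefficient of order `M` -/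
  lc : ℕ → A → R
  mono : Monotone AM
  one : (1 : A) ∈ AM 0
  mul : ∀ {M N : ℕ} {a b : A}, a ∈ AM M → b ∈ AM N → a * b ∈ AM (M + N)
  top : ∀ a, ∃ M, a ∈ AM M
  lc_add : ∀ M a b, lc M (a + b) = lc M a + lc M b
  lc_smul : ∀ {M : ℕ} (r : R) {a : A}, a ∈ AM M → lc M (r • a) = r * lc M a
  lc_mul : ∀ {M N : ℕ} {a b : A}, a ∈ AM M → b ∈ AM N → lc (M + N) (a * b) = lc M a * lc N b
  lc_one : lc 0 1 = 1
  lc_succ : ∀ {M : ℕ} {a : A}, a ∈ AM (M + 1) → (lc (M + 1) a = 0 ↔ a ∈ AM M)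
  lc_zero : ∀ {a : A}, a ∈ AM 0 → lc 0 a = 0 → a = 0

namespace Lc

variable {R F A : Type} [CommRing R] [IsDomain R] [Field F] [Algebra R F] [IsFractionRing R F]
  [CommRing A] [Algebra R A] (P : Lc R A)

/-- The semigroup. -/
def H : Set ℕ := {M | ∃ f ∈ P.AM M, P.lc M f ≠ 0}

theorem zero_mem : 0 ∈ P.H := ⟨1, P.one, by rw [P.lc_one]; exact one_ne_zero⟩

theorem add_mem {i j : ℕ} (hi : i ∈ P.H) (hj : j ∈ P.H) : i + j ∈ P.H := by
  obtain ⟨f, hf, hf'⟩ := hi
  obtain ⟨h, hh, hh'⟩ := hj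
  exact ⟨f * h, P.mul hf hh, by rw [P.lc_mul hf hh]; exact mul_ne_zero hf' hh'⟩

theorem exists_fn : ∃ f : P.H → A, (∀ i : P.H, f i ∈ P.AM i) ∧ ∀ i : P.H, P.lc i (f i) ≠ 0 := by
  have h : ∀ i : P.H, ∃ f : A, f ∈ P.AM i ∧ P.lc i f ≠ 0 := fun i => i.2
  choose f h1 h2 using h
  exact ⟨f, h1, h2⟩

theorem lc_neg {M : ℕ} {a : A} (ha : a ∈ P.AM M) : P.lc M (-a) = - P.lc M a := by
  have := P.lc_smul (-1) ha
  simpa using this

theorem lc_sub {M : ℕ} {a b : A} (hb : b ∈ P.AM M) : P.lc M (a - b) = P.lc M a - P.lc M b := by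
  rw [sub_eq_add_neg, P.lc_add, P.lc_neg hb, sub_eq_add_neg]

theorem eq_smul_one {a : A} (ha : a ∈ P.AM 0) : a = P.lc 0 a • (1 : A) := by
  have h1 : P.lc 0 a • (1 : A) ∈ P.AM 0 := (P.AM 0).smul_mem _ P.one
  have h2 : P.lc 0 (a - P.lc 0 a • (1 : A)) = 0 := by
    rw [P.lc_sub h1, P.lc_smul _ P.one, P.lc_one, mul_one, sub_self]
  exact sub_eq_zero.mp (P.lc_zero ((P.AM 0).sub_mem ha h1) h2)

section fn

variable {P} {f : P.H → A} (h1 : ∀ i : P.H, f i ∈ P.AM i) (h2 : ∀ i : P.H, P.lc i (f i) ≠ 0)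

include h1 h2

theorem linearIndependent_fn : LinearIndependent R f := by
  classical
  rw [linearIndependent_iff']
  intro t r hr
  by_contra hcon
  push Not at hcon
  obtain ⟨i, hi, hri⟩ := hcon
  set t' := t.filter fun i => r i ≠ 0 with ht'
  have hne : t'.Nonempty := ⟨i, Finset.mem_filter.mpr ⟨hi, hri⟩⟩
  obtain ⟨m, hm, hmax⟩ := Finset.exists_max_image t' (fun i => (i : ℕ)) hne
  obtain ⟨hm1, hm2⟩ := Finset.mem_filter.mp hm
  have hlt : ∀ j ∈ t.erase m, r j ≠ 0 → (j : ℕ) < m := by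
    intro j hj hrj
    obtain ⟨hj1, hj2⟩ := Finset.mem_erase.mp hj
    have := hmax j (Finset.mem_filter.mpr ⟨hj2, hrj⟩)
    exact lt_of_le_of_ne this fun h => hj1 (Subtype.ext h)
  have hsum : r m • f m = - ∑ j ∈ t.erase m, r j • f j := by
    rw [eq_neg_iff_add_eq_zero, Finset.add_sum_erase t (fun j => r j • f j) hm1, hr]
  have hlc : P.lc m (r m • f m) ≠ 0 := by
    rw [P.lc_smul _ (h1 m)]
    exact mul_ne_zero hm2 (h2 m)
  obtain ⟨m, hmH⟩ := m
  cases m with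
  | zero =>
    apply hlc
    rw [hsum, Finset.sum_eq_zero, neg_zero]
    · simpa using P.lc_smul (M := 0) 0 P.one
    · intro j hj
      by_contra hne
      exact absurd (hlt j hj fun h => hne (by rw [h, zero_smul])) (Nat.not_lt_zero _)
  | succ n =>
    apply hlc
    have hmem : r ⟨n + 1, hmH⟩ • f ⟨n + 1, hmH⟩ ∈ P.AM n := by
      rw [hsum]
      refine (P.AM n).neg_mem ((P.AM n).sum_mem fun j hj => ?_)
      by_cases hrj : r j = 0
      · rw [hrj, zero_smul]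
        exact (P.AM n).zero_mem
      · exact (P.AM n).smul_mem _ (P.mono (Nat.lt_succ_iff.mp (hlt j hj hrj)) (h1 j))
    exact (P.lc_succ ((P.AM (n + 1)).smul_mem _ (h1 ⟨n + 1, hmH⟩))).mpr hmem

/-- The normalised vectors. -/
noncomputable def vv (F : Type) [Field F] [Algebra R F] (f : P.H → A) (i : P.H) : F ⊗[R] A :=
  (algebraMap R F (P.lc i (f i)))⁻¹ • ((1 : F) ⊗ₜ[R] f i)

omit h1 in
theorem map_ne (i : P.H) : algebraMap R F (P.lc i (f i)) ≠ 0 := fun h =>
  h2 i ((IsFractionRing.injective R F) (by rw [h, map_zero]))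

omit h1 h2 [IsDomain R] [IsFractionRing R F] in
theorem one_tmul_smul (r : R) (a : A) :
    (1 : F) ⊗ₜ[R] (r • a) = algebraMap R F r • ((1 : F) ⊗ₜ[R] a) := by
  rw [TensorProduct.tmul_smul, algebraMap_smul]

omit h1 in
theorem one_tmul_fn (i : P.H) :
    (1 : F) ⊗ₜ[R] f i = algebraMap R F (P.lc i (f i)) • vv F f i := by
  rw [vv, smul_smul, mul_inv_cancel₀ (map_ne h2 i), one_smul]

theorem linearIndependent_vv : LinearIndependent F (vv F f) := by
  have h3 : LinearIndependent F (fun i => (1 : F) ⊗ₜ[R] f i) :=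
    (linearIndependent_fn h1 h2).of_isLocalizedModule F (nonZeroDivisors R)
      (TensorProduct.mk R F A 1)
  have h4 := h3.units_smul fun i => (Units.mk0 _ (map_ne (F := F) h2 i))⁻¹
  have h5 : vv F f = (fun i => (Units.mk0 _ (map_ne (F := F) h2 i))⁻¹) •
      fun i => (1 : F) ⊗ₜ[R] f i := by
    funext i
    rw [vv, Pi.smul_apply', Units.smul_def, Units.val_inv_eq_inv_val, Units.val_mk0]
  rw [h5]
  exact h4

theorem vv_zero : vv F f ⟨0, P.zero_mem⟩ = 1 := by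
  have h3 := P.eq_smul_one (h1 ⟨0, P.zero_mem⟩)
  have h4 := map_ne (F := F) h2 ⟨0, P.zero_mem⟩
  have h5 : (1 : F) ⊗ₜ[R] f ⟨0, P.zero_mem⟩ =
      algebraMap R F (P.lc 0 (f ⟨0, P.zero_mem⟩)) • ((1 : F) ⊗ₜ[R] (1 : A)) := by
    conv_lhs => rw [h3]
    exact one_tmul_smul _ _
  rw [vv, h5, smul_smul, inv_mul_cancel₀ h4, one_smul]
  rfl

theorem one_tmul_mem (M : ℕ) : ∀ a ∈ P.AM M,
    (1 : F) ⊗ₜ[R] a ∈ Submodule.span F (vv F f '' {l | (l : ℕ) ≤ M}) := by
  induction M with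
  | zero =>
    intro a ha
    rw [P.eq_smul_one ha, one_tmul_smul]
    refine Submodule.smul_mem _ _ (Submodule.subset_span ⟨⟨0, P.zero_mem⟩, le_refl 0, ?_⟩)
    exact vv_zero h1 h2
  | succ n ih =>
    intro a ha
    have hmono : Submodule.span F (vv F f '' {l : P.H | (l : ℕ) ≤ n}) ≤
        Submodule.span F (vv F f '' {l : P.H | (l : ℕ) ≤ n + 1}) :=
      Submodule.span_mono (Set.image_mono fun l (hl : (l : ℕ) ≤ n) => Nat.le_succ_of_le hl)
    by_cases hH : n + 1 ∈ P.H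
    · set i : P.H := ⟨n + 1, hH⟩ with hi
      have hb : P.lc i (f i) • a - P.lc (n + 1) a • f i ∈ P.AM n := by
        refine (P.lc_succ ((P.AM (n + 1)).sub_mem ((P.AM (n + 1)).smul_mem _ ha)
          ((P.AM (n + 1)).smul_mem _ (h1 i)))).mp ?_
        rw [P.lc_sub ((P.AM (n + 1)).smul_mem _ (h1 i)), P.lc_smul _ ha, P.lc_smul _ (h1 i),
          mul_comm, sub_self]
      have h3 := hmono (ih _ hb)
      rw [TensorProduct.tmul_sub, one_tmul_smul, one_tmul_smul] at h3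
      have h4 : (1 : F) ⊗ₜ[R] a = (algebraMap R F (P.lc i (f i)))⁻¹ •
          (algebraMap R F (P.lc i (f i)) • ((1 : F) ⊗ₜ[R] a) -
            algebraMap R F (P.lc (n + 1) a) • ((1 : F) ⊗ₜ[R] f i)) +
          algebraMap R F (P.lc (n + 1) a) • vv F f i := by
        rw [smul_sub, smul_smul, inv_mul_cancel₀ (map_ne h2 i), one_smul, vv, smul_comm]
        abel
      rw [h4]
      exact Submodule.add_mem _ (Submodule.smul_mem _ _ h3)
        (Submodule.smul_mem _ _ (Submodule.subset_span ⟨i, le_refl (n + 1), rfl⟩))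
    · refine hmono (ih a ((P.lc_succ ha).mp ?_))
      by_contra hne
      exact hH ⟨a, ha, hne⟩

theorem span_vv : ⊤ ≤ Submodule.span F (Set.range (vv F f)) := by
  intro x _
  induction x using TensorProduct.induction_on with
  | zero => exact Submodule.zero_mem _
  | tmul y a =>
    obtain ⟨M, hM⟩ := P.top a
    have h3 : y ⊗ₜ[R] a = y • ((1 : F) ⊗ₜ[R] a) := by
      rw [TensorProduct.smul_tmul', smul_eq_mul, mul_one]
    rw [h3]
    exact Submodule.smul_mem _ _ (Submodule.span_mono (Set.image_subset_range _ _)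
      (one_tmul_mem h1 h2 M a hM))
  | add x y hx hy => exact Submodule.add_mem _ (hx trivial) (hy trivial)

omit h1 h2 [IsDomain R] [Algebra R F] [IsFractionRing R F] [CommRing A] [Algebra R A] [CommRing R] in
theorem aux_mul {B : Type} [CommRing B] [Algebra F B] {x y z : F} (hx : x ≠ 0) (hy : y ≠ 0)
    (hz : z ≠ 0) (u v w : B) : (x⁻¹ • u) * (y⁻¹ • v) - z⁻¹ • w =
      (x⁻¹ * y⁻¹ * z⁻¹) • (z • (u * v) - (x * y) • w) := by
  rw [smul_mul_smul_comm, smul_sub, smul_smul, smul_smul]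
  have h3 : x⁻¹ * y⁻¹ * z⁻¹ * z = x⁻¹ * y⁻¹ := by field_simp
  have h4 : x⁻¹ * y⁻¹ * z⁻¹ * (x * y) = z⁻¹ := by field_simp
  rw [h3, h4]

omit h1 h2 [IsDomain R] [IsFractionRing R F] in
theorem one_tmul_mul (a b : A) :
    (1 : F) ⊗ₜ[R] (a * b) = ((1 : F) ⊗ₜ[R] a) * ((1 : F) ⊗ₜ[R] b) := by
  rw [Algebra.TensorProduct.tmul_mul_tmul, mul_one]

omit h1 h2 in
theorem one_tmul_mul_sub {i j : ℕ} {u v w : A} (hu : u ∈ P.AM i) (hv : v ∈ P.AM j)
    (hw : w ∈ P.AM (i + j)) :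
    P.lc (i + j) w • (u * v) - (P.lc i u * P.lc j v) • w ∈ P.AM (i + j) ∧
      P.lc (i + j) (P.lc (i + j) w • (u * v) - (P.lc i u * P.lc j v) • w) = 0 := by
  have hij : u * v ∈ P.AM (i + j) := P.mul hu hv
  refine ⟨(P.AM _).sub_mem ((P.AM _).smul_mem _ hij) ((P.AM _).smul_mem _ hw), ?_⟩
  rw [P.lc_sub ((P.AM _).smul_mem _ hw), P.lc_smul _ hij, P.lc_mul hu hv, P.lc_smul _ hw]
  ring

theorem vv_mul_aux {i j : ℕ} {u v w : A} (hu : u ∈ P.AM i) (hv : v ∈ P.AM j)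
    (hw : w ∈ P.AM (i + j)) :
    (1 : F) ⊗ₜ[R] (P.lc (i + j) w • (u * v) - (P.lc i u * P.lc j v) • w) ∈
      Submodule.span F (vv F f '' {l | (l : ℕ) < i + j}) := by
  obtain ⟨hb1, hb2⟩ := one_tmul_mul_sub hu hv hw
  generalize P.lc (i + j) w • (u * v) - (P.lc i u * P.lc j v) • w = b at hb1 hb2 ⊢
  rcases Nat.eq_zero_or_pos (i + j) with h0 | h0
  · rw [h0] at hb1 hb2
    rw [P.lc_zero hb1 hb2, TensorProduct.tmul_zero]
    exact Submodule.zero_mem _
  · obtain ⟨n, hn⟩ := Nat.exists_eq_succ_of_ne_zero h0.ne'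
    rw [hn, Nat.succ_eq_add_one] at hb1 hb2 ⊢
    have h3 := one_tmul_mem (F := F) h1 h2 n b ((P.lc_succ hb1).mp hb2)
    have h4 : {l : P.H | (l : ℕ) ≤ n} ⊆ {l : P.H | (l : ℕ) < n + 1} := fun l hl =>
      Nat.lt_succ_of_le hl
    exact Submodule.span_mono (Set.image_mono h4) h3

theorem vv_mul (i j : P.H) : vv F f i * vv F f j - vv F f ⟨i + j, P.add_mem i.2 j.2⟩ ∈
    Submodule.span F (vv F f '' {l | (l : ℕ) < (i : ℕ) + j}) := by
  have h3 := vv_mul_aux (F := F) h1 h2 (h1 i) (h1 j) (h1 ⟨i + j, P.add_mem i.2 j.2⟩)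
  have hx0 := map_ne (F := F) h2 i
  have hy0 := map_ne (F := F) h2 j
  have hz0 := map_ne (F := F) h2 ⟨i + j, P.add_mem i.2 j.2⟩
  rw [TensorProduct.tmul_sub, one_tmul_smul, one_tmul_smul, map_mul, one_tmul_mul] at h3
  have h4 := Submodule.smul_mem _ ((algebraMap R F (P.lc i (f i)))⁻¹ *
    (algebraMap R F (P.lc j (f j)))⁻¹ *
    (algebraMap R F (P.lc (i + j : ℕ) (f ⟨i + j, P.add_mem i.2 j.2⟩)))⁻¹) h3
  rw [← aux_mul hx0 hy0 hz0] at h4
  exact h4

end fn

variable (F)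

/-- The filtered algebra over the fraction field. -/
theorem exists_filt (g : ℕ)
    (hg : ∀ M, 2 * g ≤ M + 1 → ∃ (n : ℕ) (e : Fin n → A), (∀ j, e j ∈ P.AM M) ∧
      (∀ f ∈ P.AM M, ∃ r : Fin n → R, f = ∑ j, r j • e j) ∧ LinearIndependent R e ∧
      n + g = M + 1) :
    ∃ Q : Filt F (F ⊗[R] A) g, ∀ M, Q.V M =
      Submodule.span F {x | ∃ f ∈ P.AM M, x = 1 ⊗ₜ[R] f} := by
  classical
  obtain ⟨f, h1, h2⟩ := P.exists_fn
  have hV : ∀ M, Submodule.span F (vv F f '' {l | (l : ℕ) ≤ M}) =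
      Submodule.span F {x | ∃ f ∈ P.AM M, x = 1 ⊗ₜ[R] f} := by
    intro M
    apply le_antisymm
    · rw [Submodule.span_le]
      rintro _ ⟨l, hl, rfl⟩
      exact Submodule.smul_mem _ _ (Submodule.subset_span ⟨f l, P.mono hl (h1 l), rfl⟩)
    · rw [Submodule.span_le]
      rintro _ ⟨a, ha, rfl⟩
      exact one_tmul_mem h1 h2 M a ha
  -- the dimensions
  have hcard : ∀ M, 2 * g ≤ M + 1 → (({l | l ∈ P.H ∧ l ≤ M} : Set ℕ).ncard) + g = M + 1 := by
    intro M hM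
    obtain ⟨n, e, he1, he2, he3, he4⟩ := hg M hM
    have h3 : LinearIndependent F (fun i => (1 : F) ⊗ₜ[R] e i) :=
      he3.of_isLocalizedModule F (nonZeroDivisors R) (TensorProduct.mk R F A 1)
    have h4 : Submodule.span F (Set.range fun i => (1 : F) ⊗ₜ[R] e i) =
        Submodule.span F {x | ∃ f ∈ P.AM M, x = 1 ⊗ₜ[R] f} := by
      apply le_antisymm
      · rw [Submodule.span_le]
        rintro _ ⟨j, rfl⟩
        exact Submodule.subset_span ⟨e j, he1 j, rfl⟩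
      · rw [Submodule.span_le]
        rintro _ ⟨a, ha, rfl⟩
        obtain ⟨r, hr⟩ := he2 a ha
        rw [hr, TensorProduct.tmul_sum]
        refine Submodule.sum_mem _ fun j _ => ?_
        rw [one_tmul_smul]
        exact Submodule.smul_mem _ _ (Submodule.subset_span ⟨j, rfl⟩)
    have h5 : Module.finrank F (Submodule.span F (Set.range fun i => (1 : F) ⊗ₜ[R] e i)) = n := by
      rw [finrank_span_eq_card h3, Fintype.card_fin]
    set S : Set P.H := {l | (l : ℕ) ≤ M} with hS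
    have hSfin : S.Finite := by
      refine Set.Finite.preimage (Subtype.val_injective.injOn) (Set.finite_Iic M)
    have h6 : Module.finrank F (Submodule.span F (vv F f '' S)) = S.ncard := by
      have hli : LinearIndependent F (fun x : (vv F f '' S) => (x : F ⊗[R] A)) :=
        ((linearIndependent_vv h1 h2).comp (Subtype.val : S → P.H)
          Subtype.val_injective).linearIndepOn_id.mono (by
            rintro _ ⟨l, hl, rfl⟩; exact ⟨⟨l, hl⟩, rfl⟩)
      have hfin : (vv F f '' S).Finite := hSfin.image _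
      haveI : Fintype (vv F f '' S) := hfin.fintype
      rw [finrank_span_set_eq_card hli, Set.toFinset_card, ← Nat.card_eq_fintype_card,
        Nat.card_coe_set_eq, Set.ncard_image_of_injective]
      exact (linearIndependent_vv (F := F) h1 h2).injective
    have h7 : S.ncard = n := by
      rw [← h6, hV M, ← h4, h5]
    have h8 : ({l | l ∈ P.H ∧ l ≤ M} : Set ℕ) = Subtype.val '' S := by
      ext l
      constructor
      · rintro ⟨h, h'⟩
        exact ⟨⟨l, h⟩, h', rfl⟩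
      · rintro ⟨l, h, rfl⟩
        exact ⟨l.2, h⟩
    rw [h8, Set.ncard_image_of_injective _ Subtype.val_injective, h7]
    exact he4
  have hgap : ∀ M, 2 * g ≤ M + 1 → ({l | l ∉ P.H ∧ l ≤ M} : Set ℕ).ncard = g := by
    intro M hM
    have h3 : ({l | l ∈ P.H ∧ l ≤ M} : Set ℕ) ∪ {l | l ∉ P.H ∧ l ≤ M} = Set.Iic M := by
      ext l
      constructor
      · rintro (⟨_, h⟩ | ⟨_, h⟩) <;> exact h
      · intro h
        by_cases hl : l ∈ P.H
        · exact Or.inl ⟨hl, h⟩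
        · exact Or.inr ⟨hl, h⟩
    have h4 : Disjoint ({l | l ∈ P.H ∧ l ≤ M} : Set ℕ) {l | l ∉ P.H ∧ l ≤ M} := by
      rw [Set.disjoint_left]
      rintro l ⟨h, _⟩ ⟨h', _⟩
      exact h' h
    have h5 : ({l | l ∈ P.H ∧ l ≤ M} : Set ℕ).Finite :=
      (Set.finite_Iic M).subset fun l hl => hl.2
    have h6 : ({l | l ∉ P.H ∧ l ≤ M} : Set ℕ).Finite :=
      (Set.finite_Iic M).subset fun l hl => hl.2
    have h7 := Set.ncard_union_eq h4 h5 h6
    rw [h3] at h7
    have h8 : (Set.Iic M : Set ℕ).ncard = M + 1 := by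
      rw [← Finset.coe_Iic, Set.ncard_coe_finset, Nat.card_Iic]
    have h9 := hcard M hM
    omega
  have hcompl : P.Hᶜ = {l | l ∉ P.H ∧ l ≤ 2 * g} := by
    ext l
    constructor
    · intro hl
      refine ⟨hl, ?_⟩
      by_contra hlt
      push Not at hlt
      have h3 := hgap (2 * g) (by omega)
      have h4 := hgap l (by omega)
      have h5 : ({l | l ∉ P.H ∧ l ≤ 2 * g} : Set ℕ) ⊂ {l' | l' ∉ P.H ∧ l' ≤ l} := by
        refine ⟨fun x hx => ⟨hx.1, hx.2.trans hlt.le⟩, fun h => ?_⟩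
        have := (h ⟨hl, le_refl l⟩ : l ∈ {l | l ∉ P.H ∧ l ≤ 2 * g}).2
        omega
      have h6 := Set.ncard_lt_ncard h5 ((Set.finite_Iic l).subset fun x hx => hx.2)
      omega
    · exact fun hl => hl.1
  refine ⟨⟨P.H, Module.Basis.mk (linearIndependent_vv (F := F) h1 h2) (span_vv h1 h2),
    P.zero_mem, fun hi hj => P.add_mem hi hj, ?_, ?_, ?_⟩, ?_⟩
  · rw [Module.Basis.mk_apply]
    exact vv_zero h1 h2
  · intro i j
    rw [Module.Basis.coe_mk]
    exact vv_mul h1 h2 i j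
  · have hfin : ({l | l ∉ P.H ∧ l ≤ 2 * g} : Set ℕ).Finite :=
      (Set.finite_Iic (2 * g)).subset fun l hl => hl.2
    rw [hcompl, ← hfin.cast_ncard_eq, hgap (2 * g) (by omega)]
  · intro M
    rw [← hV M]
    change Submodule.span F ((Module.Basis.mk (linearIndependent_vv (F := F) h1 h2)
      (span_vv h1 h2)) '' {l | (l : ℕ) ≤ M}) = _
    rw [Module.Basis.coe_mk]

end Lc

end Pool.Agent.Helper30.EC
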