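import Pool.Agent.Helper30.EC.FiltAbs
import Pool.Agent.Helper18.EC.Lattice

/-!
# Project EC, module EC-C5: the generic fibre is a filtered algebra
-/

set_option autoImplicit false

namespace Pool.Agent.Helper30.EC

open Polynomial TensorProduct Pool.Agent.Helper34.EC Pool.Agent.Helper18.EC

section ps

variable {k : Type} [Field k] {g : ℕ}

/-- The leading coefficient at infinity. -/
noncomputable def LC (g M : ℕ) (f : PowerSeries k[X]) : PowerSeries k :=
  PowerSeries.mk fun n => (PowerSeries.coeff n f).coeff (M + 2 * g * n)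

theorem coeff_LC (M n : ℕ) (f : PowerSeries k[X]) : PowerSeries.coeff n (LC g M f) =
    (PowerSeries.coeff n f).coeff (M + 2 * g * n) := PowerSeries.coeff_mk _ _

theorem LC_add (M : ℕ) (f h : PowerSeries k[X]) : LC g M (f + h) = LC g M f + LC g M h := by
  ext n
  rw [coeff_LC, map_add, map_add, coeff_add, coeff_LC, coeff_LC]

theorem Bd.mono {M N : ℕ} (hMN : M ≤ N) {f : PowerSeries k[X]} (hf : Bd g M f) : Bd g N f :=
  fun n => (hf n).trans (by omega)

theorem Bd.mul {M N : ℕ} {f h : PowerSeries k[X]} (hf : Bd g M f) (hh : Bd g N h) :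
    Bd g (M + N) (f * h) := by
  intro n
  rw [PowerSeries.coeff_mul]
  apply natDegree_sum_le_of_forall_le
  intro p hp
  have h5 : p.1 + p.2 = n := Finset.HasAntidiagonal.mem_antidiagonal.mp hp
  refine natDegree_mul_le.trans ?_
  have := hf p.1
  have := hh p.2
  subst h5
  rw [mul_add]
  omega

theorem LC_mul {M N : ℕ} {f h : PowerSeries k[X]} (hf : Bd g M f) (hh : Bd g N h) :
    LC g (M + N) (f * h) = LC g M f * LC g N h := by
  ext n
  rw [coeff_LC, PowerSeries.coeff_mul, PowerSeries.coeff_mul, finsetSum_coeff]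
  refine Finset.sum_congr rfl fun p hp => ?_
  have h5 : p.1 + p.2 = n := Finset.HasAntidiagonal.mem_antidiagonal.mp hp
  rw [coeff_LC, coeff_LC, ← coeff_mul_add_eq_of_natDegree_le (hf p.1) (hh p.2)]
  congr 1
  rw [← h5, mul_add]
  omega

theorem Bd_io (c : Fin g × Bool → k) (r : PowerSeries k) : Bd g 0 (io c r) := by
  intro n
  rw [coeff_io]
  refine (natDegree_mul_C_le _ _).trans ?_
  refine natDegree_pow_le.trans ?_
  rw [natDegree_DD]
  linarith [mul_comm n (2 * g)]

theorem monic_DD (c : Fin g × Bool → k) : (DD c).Monic :=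
  monic_prod_of_monic _ _ fun _ _ => monic_X_sub_C _

theorem LC_io (c : Fin g × Bool → k) (r : PowerSeries k) : LC g 0 (io c r) = r := by
  ext n
  rw [coeff_LC, coeff_io, coeff_mul_C, zero_add]
  have h1 : ((DD c) ^ n).natDegree = 2 * g * n := by
    rw [(monic_DD c).natDegree_pow, natDegree_DD, mul_comm]
  have h2 := (monic_DD c).pow n
  rw [← h1, h2.coeff_natDegree, one_mul]

theorem io_injective (c : Fin g × Bool → k) : Function.Injective (io c) := by
  intro r s h
  rw [← LC_io c r, h, LC_io c s]

theorem LC_one : LC g 0 (1 : PowerSeries k[X]) = 1 := by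
  ext n
  rw [coeff_LC, PowerSeries.coeff_one, PowerSeries.coeff_one]
  split_ifs with h
  · subst h; simp
  · simp

theorem Bd_one : Bd g 0 (1 : PowerSeries k[X]) := by
  intro n
  rw [PowerSeries.coeff_one]
  split_ifs <;> simp

theorem LC_succ {M : ℕ} {f : PowerSeries k[X]} (hf : Bd g (M + 1) f) :
    LC g (M + 1) f = 0 ↔ Bd g M f := by
  constructor
  · intro h n
    rw [natDegree_le_iff_coeff_eq_zero]
    intro N hN
    rcases eq_or_lt_of_le (show M + 1 + 2 * g * n ≤ N by omega) with h1 | h1
    · rw [← h1, ← coeff_LC, h, map_zero]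
    · exact natDegree_le_iff_coeff_eq_zero.mp (hf n) N h1
  · intro h
    ext n
    rw [coeff_LC, map_zero]
    exact natDegree_le_iff_coeff_eq_zero.mp (h n) _ (by omega)

end ps

variable {k : Type} [Field k] {g : ℕ} (c : Pts k g)

theorem ps_smul (r : PowerSeries k) (f : c.A) : c.ps (r • f) = io c.c r * c.ps f := by
  rw [Algebra.smul_def, map_mul, Pts.ps_algebraMap]

theorem Bd_smul {M : ℕ} (r : PowerSeries k) {f : PowerSeries k[X]} (hf : Bd g M f) :
    Bd g M (io c.c r * f) := by
  have := Bd.mul (Bd_io c.c r) hf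
  rwa [zero_add] at this

theorem coeff_zero_ps_smul (r : PowerSeries k) (f : c.A) :
    PowerSeries.coeff 0 (c.ps (r • f)) =
      PowerSeries.coeff 0 r • PowerSeries.coeff 0 (c.ps f) := by
  have h := coeff_io c.c r 0
  rw [pow_zero, one_mul] at h
  rw [ps_smul, smul_eq_C_mul, ← h]
  simp only [PowerSeries.coeff_zero_eq_constantCoeff, map_mul]

/-- The elements of order at most `M`. -/
noncomputable def AMs (M : ℕ) : Submodule (PowerSeries k) c.A where
  carrier := c.AM M
  zero_mem' := fun n => by rw [map_zero, map_zero, natDegree_zero]; exact Nat.zero_le _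
  add_mem' := by
    intro f h hf hh n
    rw [map_add, map_add]
    refine (natDegree_add_le _ _).trans ?_
    have := hf n
    have := hh n
    omega
  smul_mem' := by
    intro r f hf
    change Bd g M (c.ps (r • f))
    rw [ps_smul]
    exact Bd_smul c r hf

theorem mem_AMs {M : ℕ} {f : c.A} : f ∈ AMs c M ↔ Bd g M (c.ps f) := Iff.rfl

theorem linearIndependent_of_coeff {n : ℕ} (e : Fin n → c.A)
    (he : LinearIndependent k (fun j => PowerSeries.coeff 0 (c.ps (e j)))) :
    LinearIndependent (PowerSeries k) e := by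
  rw [Fintype.linearIndependent_iff] at he ⊢
  intro r hr
  have h1 : ∀ m : ℕ, ∀ j, (PowerSeries.X : PowerSeries k) ^ m ∣ r j := by
    intro m
    induction m with
    | zero => intro j; rw [pow_zero]; exact one_dvd _
    | succ m ih =>
      choose r' hr' using ih
      have h2 : (PowerSeries.X ^ m : PowerSeries k) • ∑ j, r' j • e j = 0 := by
        rw [Finset.smul_sum, ← hr]
        refine Finset.sum_congr rfl fun j _ => ?_
        rw [smul_smul, ← hr']
      have h3 : ∑ j, r' j • e j = 0 := by
        rw [Algebra.smul_def] at h2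
        rcases mul_eq_zero.mp h2 with h4 | h4
        · exfalso
          have h5 : io c.c (PowerSeries.X ^ m : PowerSeries k) = io c.c 0 := by
            rw [← Pts.ps_algebraMap, h4, map_zero, map_zero]
          exact pow_ne_zero m PowerSeries.X_ne_zero (io_injective c.c h5)
        · exact h4
      have h4 : ∑ j, PowerSeries.coeff 0 (r' j) • PowerSeries.coeff 0 (c.ps (e j)) = 0 := by
        have h5 := congrArg (fun x => PowerSeries.coeff 0 (c.ps x)) h3
        simp only [map_sum, map_zero, coeff_zero_ps_smul] at h5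
        exact h5
      intro j
      have h5 := he (fun j => PowerSeries.coeff 0 (r' j)) h4 j
      have h6 : (PowerSeries.X : PowerSeries k) ∣ r' j := by
        rw [PowerSeries.X_dvd_iff, ← PowerSeries.coeff_zero_eq_constantCoeff_apply]
        exact h5
      rw [hr' j, pow_succ]
      exact mul_dvd_mul_left _ h6
  intro j
  ext n
  rw [map_zero]
  exact PowerSeries.X_pow_dvd_iff.mp (h1 (n + 1) j) n (Nat.lt_succ_self n)

theorem eq_zero_of_LC {f : c.A} (hf : f ∈ c.AM 0) (h : LC g 0 (c.ps f) = 0) : f = 0 := by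
  obtain ⟨n, e, he1, he2, he3, -⟩ := exists_lattice c 0
  obtain ⟨r, hr⟩ := he2 f hf
  have h1 : ∀ j, PowerSeries.coeff 0 (c.ps (e j)) =
      C ((PowerSeries.coeff 0 (c.ps (e j))).coeff 0) := by
    intro j
    apply eq_C_of_natDegree_le_zero
    have := he1 j 0
    omega
  have h2 : LinearIndependent k (fun j => (PowerSeries.coeff 0 (c.ps (e j))).coeff 0) := by
    apply LinearIndependent.of_comp (Algebra.linearMap k k[X])
    have h3 : (Algebra.linearMap k k[X] ∘ fun j =>
        (PowerSeries.coeff 0 (c.ps (e j))).coeff 0) =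
        fun j => PowerSeries.coeff 0 (c.ps (e j)) := by
      funext j
      rw [Function.comp_apply, Algebra.linearMap_apply, algebraMap_eq, ← h1 j]
    rw [h3]
    exact he3
  have h3 : n ≤ 1 := by
    have := h2.fintype_card_le_finrank
    simpa using this
  rw [hr]
  refine Finset.sum_eq_zero fun j _ => ?_
  have h4 : f = r j • e j := by
    rw [hr]
    refine Finset.sum_eq_single j (fun i _ hij => ?_) (fun h => absurd (Finset.mem_univ j) h)
    exact absurd (Fin.ext (by omega)) hij
  rw [h4, ps_smul] at h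
  have h5 := LC_mul (Bd_io c.c (r j)) (he1 j)
  rw [zero_add, h, LC_io] at h5
  rcases mul_eq_zero.mp h5.symm with h6 | h6
  · rw [h6, zero_smul]
  · exfalso
    have h7 := congrArg (PowerSeries.coeff 0) h6
    rw [coeff_LC, map_zero, mul_zero, add_zero] at h7
    exact h2.ne_zero j h7

/-- The leading coefficients. -/
noncomputable def lcA : Lc (PowerSeries k) c.A where
  AM := AMs c
  lc M f := LC g M (c.ps f)
  mono M N h f hf := Bd.mono h hf
  one := by
    rw [mem_AMs, map_one]
    exact Bd_one
  mul {M N a b} ha hb := by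
    rw [mem_AMs, map_mul]
    exact Bd.mul ha hb
  top a := (c.ps_mem a).2
  lc_add M a b := by rw [map_add, LC_add]
  lc_smul {M} r {a} ha := by
    have := LC_mul (Bd_io c.c r) ha
    rw [zero_add, LC_io] at this
    rw [ps_smul, this]
  lc_mul {M N a b} ha hb := by
    rw [map_mul]
    exact LC_mul ha hb
  lc_one := by rw [map_one, LC_one]
  lc_succ {M a} ha := LC_succ ha
  lc_zero {a} ha h := eq_zero_of_LC c ha h

/-- EC-C5 -/
theorem exists_filt (c : Pts k g) :
    ∃ P : Filt (LaurentSeries k) c.AF g, ∀ M, P.V M = c.VF M := by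
  refine Lc.exists_filt (LaurentSeries k) (lcA c) g fun M hM => ?_
  obtain ⟨n, e, he1, he2, he3, he4⟩ := exists_lattice c M
  exact ⟨n, e, he1, he2, linearIndependent_of_coeff c e he3, he4 hM⟩

end Pool.Agent.Helper30.EC
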